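import Pool.Agent.H19.AB.Defs
import Pool.Agent.H63.MA.GTriv

/-!
# [H24 RM KL] Kummer characters lift to characters modulo `p^n`

`B ^ (p ^ n) = b`, `σ B = z ^ (Θ σ) * B`.
-/

set_option autoImplicit false
set_option linter.dupNamespace false

open scoped NumberField
open IsDedekindDomain
open scoped Classical

noncomputable section

namespace Pool.Agent.H24.RM

open H63.MA

variable {K : Type} [Field K] [NumberField K] {Ω : Type} [Field Ω] [Algebra K Ω] [IsAlgClosure K Ω]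
  {p : ℕ} {ζ : K}

/-- Kummer characters lift to characters modulo `p^n` -/
theorem kl (hp : p.Prime) (hζ : IsPrimitiveRoot ζ p) {n : ℕ} (hn : 1 ≤ n) {z : K}
    (hz : IsPrimitiveRoot z (p ^ n)) (hzζ : z ^ (p ^ (n - 1)) = ζ) (b : Kˣ) :
    ∃ Θ : Gal(Ω/K) → ℤ, Lev Θ ∧ (∀ σ, ((Θ σ : ℤ) : ZMod p) = kk p ζ b σ) ∧
      ∀ σ τ, ((p : ℤ) ^ n) ∣ Θ σ + Θ τ - Θ (σ * τ) := by
  have hcl : IsAlgClosed Ω := IsAlgClosure.isAlgClosed K
  have hpn : 0 < p ^ n := pow_pos hp.pos n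
  have hne : NeZero (p ^ n) := ⟨hpn.ne'⟩
  obtain ⟨B, hB⟩ := IsAlgClosed.exists_pow_nat_eq (algebraMap K Ω (b : K)) hpn
  have hb0 : algebraMap K Ω (b : K) ≠ 0 := by
    intro h0
    exact b.ne_zero ((map_eq_zero (algebraMap K Ω)).1 h0)
  have hB0 : B ≠ 0 := by
    intro h0
    rw [h0, zero_pow hpn.ne'] at hB
    exact hb0 hB.symm
  have hZ : IsPrimitiveRoot (algebraMap K Ω z) (p ^ n) :=
    hz.map_of_injective (algebraMap K Ω).injective
  have hZ0 : algebraMap K Ω z ≠ 0 := hZ.ne_zero hpn.ne'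
  have hex : ∀ x : Ω, ∃ j : ℕ, x ^ (p ^ n) = 1 → algebraMap K Ω z ^ j = x := by
    intro x
    by_cases hx : x ^ (p ^ n) = 1
    · obtain ⟨l, -, hl⟩ := hZ.eq_pow_of_pow_eq_one hx
      exact ⟨l, fun _ => hl⟩
    · exact ⟨0, fun h => absurd h hx⟩
  choose J hJ using hex
  have hσ : ∀ σ : Gal(Ω/K), algebraMap K Ω z ^ J (σ B / B) * B = σ B := by
    intro σ
    rw [hJ _ (by rw [div_pow, ← map_pow, hB, AlgEquiv.commutes, div_self hb0]),
      div_mul_cancel₀ _ hB0]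
  refine ⟨fun σ => (J (σ B / B) : ℤ), ?_, fun σ => ?_, fun σ τ => ?_⟩
  · have hint : IsIntegral K B := (Algebra.IsAlgebraic.isAlgebraic B).isIntegral
    refine ⟨IntermediateField.adjoin K {B}, IntermediateField.adjoin.finiteDimensional hint,
      fun σ u hu => ?_⟩
    rw [IntermediateField.mem_fixingSubgroup_iff] at hu
    have h1 : u B = B := hu B (IntermediateField.mem_adjoin_simple_self K B)
    show ((J ((σ * u) B / B) : ℕ) : ℤ) = (J (σ B / B) : ℤ)
    rw [AlgEquiv.mul_apply, h1]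
  · have h1 : (B ^ (p ^ (n - 1))) ^ p = algebraMap K Ω (b : K) := by
      rw [← pow_mul, ← pow_succ, Nat.sub_add_cancel hn, hB]
    rw [Int.cast_natCast]
    have h2 := kk_of_root hp hζ b (B ^ (p ^ (n - 1))) h1 σ ((J (σ B / B) : ℕ) : ℤ) (by
      rw [zpow_natCast, map_pow]
      conv_lhs => rw [← hσ σ]
      rw [mul_pow, ← hzζ, map_pow, ← pow_mul, ← pow_mul, mul_comm (J (σ B / B))])
    rw [h2, Int.cast_natCast]
  · have h1 : (σ * τ) B = algebraMap K Ω z ^ J (τ B / B) * (algebraMap K Ω z ^ J (σ B / B) * B) := by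
      rw [AlgEquiv.mul_apply]
      conv_lhs => rw [← hσ τ]
      rw [map_mul, map_pow, AlgEquiv.commutes, hσ σ]
    have h2 := hσ (σ * τ)
    have h3 : algebraMap K Ω z ^ J ((σ * τ) B / B) =
        algebraMap K Ω z ^ J (σ B / B) * algebraMap K Ω z ^ J (τ B / B) := by
      apply mul_right_cancel₀ hB0
      rw [h2, h1]
      ring
    have h4 : algebraMap K Ω z ^ ((J (σ B / B) : ℤ) + J (τ B / B) - J ((σ * τ) B / B)) = 1 := by
      rw [zpow_sub₀ hZ0, zpow_add₀ hZ0, zpow_natCast, zpow_natCast, zpow_natCast, h3]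
      exact div_self (mul_ne_zero (pow_ne_zero _ hZ0) (pow_ne_zero _ hZ0))
    have h5 := (hZ.zpow_eq_one_iff_dvd _).1 h4
    rw [Nat.cast_pow] at h5
    exact h5

end Pool.Agent.H24.RM
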