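import Pool.Agent.H24.RM.Stp
import Pool.Agent.H51.MT.Brg
import Pool.Agent.H63.MA.GTw

/-!
# [H24 RM RMZ] reciprocity for integral cochains which are cocycles modulo `p^m`

Induction on `m`: `rm_base` (`H51.MT.brg`), `rm_step`.
-/

set_option autoImplicit false
set_option linter.dupNamespace false

open scoped NumberField
open IsDedekindDomain
open scoped Classical

noncomputable section

namespace Pool.Agent.H24.RM

open H63.MA H38.BB H38.BG H57.PC H57.BRA H89.BRG H48.MF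

variable {K : Type} [Field K] [NumberField K] {Ω : Type} [Field Ω] [Algebra K Ω] [IsAlgClosure K Ω]
  {p : ℕ} {ζ : K}

theorem rm_base (hp : p.Prime) (hp2 : MOne p K) (hζ : IsPrimitiveRoot ζ p) (hz2 : Z2 p K)
    {D : RD0 K p ζ} {L : LDs D Ω} (Q : DP K Ω) (Fr : FR L) {lam : Pl K → ZMod p}
    (hlam : IsRec p ζ lam) {R : Type} [Group R] [Finite R] (ρ : Gal(Ω/K) →* R)
    (hρ : H38.ML.FT ρ) (C : Gal(Ω/K) → Gal(Ω/K) → ℤ) (hC : IZ ((p : ℤ) ^ 1) C)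
    (hfac : ∀ σ σ' τ τ', ρ σ = ρ σ' → ρ τ = ρ τ' → C σ τ = C σ' τ')
    (hS : ∀ v ∈ D.S0, ∃ θ : Gal(Ω/K) → ℤ, Lev θ ∧ ∀ σ ∈ dec (K := K) (Q.P v),
      ∀ τ ∈ dec (K := K) (Q.P v), ((p : ℤ) ^ 1) ∣ dd θ σ τ - C σ τ)
    (htm : ∀ v, v ∉ D.S0 → ∀ τ ∈ inr L v, ρ τ ^ p = 1)
    (T : Finset (Pl K)) (hT : ∀ v ∈ T, v ∉ D.S0)
    (hur : ∀ v, v ∉ D.S0 → v ∉ T → C (Fr.F v) (L.t v) = C (L.t v) (Fr.F v)) :
    ((p : ℤ) ^ 1) ∣ ∑ v ∈ T, ((lam v).val : ℤ) * (C (Fr.F v) (L.t v) - C (L.t v) (Fr.F v)) := by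
  haveI : NeZero p := ⟨hp.ne_zero⟩
  rw [pow_one] at hC hS ⊢
  have hfin := ram_finite hp D L ρ hρ
  have hX1 : ∀ σ τ υ, (((C τ υ : ℤ) : ZMod p) + ((C σ (τ * υ) : ℤ) : ZMod p)) =
      ((C (σ * τ) υ : ℤ) : ZMod p) + ((C σ τ : ℤ) : ZMod p) := by
    intro σ τ υ
    have h := dz (hC.co σ τ υ)
    push_cast at h
    linear_combination h
  have hKl : ∀ v ∈ D.S0, Kl (fun σ τ => ((C σ τ : ℤ) : ZMod p))
      (dec (K := K) (Q.P v) : Set Gal(Ω/K)) := by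
    intro v hv
    obtain ⟨θ, ⟨E, hE, h⟩, h2⟩ := hS v hv
    refine ⟨fun σ => ((-(θ σ) : ℤ) : ZMod p), ⟨E, hE, fun σ u hu =>
      congrArg (fun x : ℤ => ((-x : ℤ) : ZMod p)) (h σ u hu)⟩, fun σ hσ τ hτ => ?_⟩
    have h1 := dz (h2 σ hσ τ hτ)
    unfold dd at h1
    show ((-(θ (σ * τ)) : ℤ) : ZMod p) = ((-(θ σ) : ℤ) : ZMod p) +
      ((-(θ τ) : ℤ) : ZMod p) + ((C σ τ : ℤ) : ZMod p)
    push_cast at h1 ⊢
    linear_combination h1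
  have h1 := H51.MT.brg hp hp2 hζ hz2 Q Fr ρ hρ (fun σ τ => ((C σ τ : ℤ) : ZMod p))
    (fun σ => by rw [hC.l1, Int.cast_zero]) (fun σ => by rw [hC.r1, Int.cast_zero]) hX1
    (fun σ σ' τ τ' h h' => by rw [hfac σ σ' τ τ' h h']) hKl htm (T ∪ hfin.toFinset)
    (fun v hv => by
      rcases Finset.mem_union.1 hv with h | h
      · exact hT v h
      · exact ((Set.Finite.mem_toFinset hfin).1 h).1)
    (fun v hv hvT => by
      by_contra h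
      exact hvT (Finset.mem_union_right _ ((Set.Finite.mem_toFinset hfin).2 ⟨hv, h⟩))) hlam
  have h2 : ∑ v ∈ T, lam v * (((C (Fr.F v) (L.t v) : ℤ) : ZMod p) - ((C (L.t v) (Fr.F v) : ℤ) : ZMod p)) = 0 := by
    rw [← h1]
    refine Finset.sum_subset Finset.subset_union_left fun v hv hvT => ?_
    have h3 : v ∉ D.S0 := by
      rcases Finset.mem_union.1 hv with h | h
      · exact hT v h
      · exact ((Set.Finite.mem_toFinset hfin).1 h).1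
    rw [hur v h3 hvT, sub_self, mul_zero]
  apply zd
  rw [← h2]
  push_cast
  refine Finset.sum_congr rfl fun v _ => ?_
  rw [ZMod.natCast_zmod_val]

theorem rmz (hp : p.Prime) (hp2 : MOne p K) (hζ : IsPrimitiveRoot ζ p) (hz2 : Z2 p K)
    {D : RD0 K p ζ} {L : LDs D Ω} (Q : DP K Ω) (Fr : FR L) {lam : Pl K → ZMod p}
    (hlam : IsRec p ζ lam) (T : Finset (Pl K)) (hT : ∀ v ∈ T, v ∉ D.S0) (n : ℕ) :
    ∀ (z : K), IsPrimitiveRoot z (p ^ (n + 2)) → z ^ (p ^ (n + 1)) = ζ →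
    ∀ (R : Type) [Group R] [Finite R] (ρ : Gal(Ω/K) →* R), H38.ML.FT ρ →
    ∀ C : Gal(Ω/K) → Gal(Ω/K) → ℤ, IZ ((p : ℤ) ^ (n + 1)) C →
    (∀ σ σ' τ τ', ρ σ = ρ σ' → ρ τ = ρ τ' → C σ τ = C σ' τ') →
    (∀ v ∈ D.S0, ∃ θ : Gal(Ω/K) → ℤ, Lev θ ∧ ∀ σ ∈ dec (K := K) (Q.P v),
      ∀ τ ∈ dec (K := K) (Q.P v), ((p : ℤ) ^ (n + 1)) ∣ dd θ σ τ - C σ τ) →
    (∀ v, v ∉ D.S0 → ∀ τ ∈ inr L v, ρ τ ^ p = 1) →
    (∀ v, v ∉ D.S0 → v ∉ T → C (Fr.F v) (L.t v) = C (L.t v) (Fr.F v)) →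
    ((p : ℤ) ^ (n + 1)) ∣ ∑ v ∈ T, ((lam v).val : ℤ) * (C (Fr.F v) (L.t v) - C (L.t v) (Fr.F v)) := by
  induction n with
  | zero =>
    intro z _ _ R _ _ ρ hρ C hC hfac hS htm hur
    exact rm_base hp hp2 hζ hz2 Q Fr hlam ρ hρ C hC hfac hS htm T hT hur
  | succ n ih =>
    intro z hz hzζ R _ _ ρ hρ C hC hfac hS htm hur
    obtain ⟨R2, i1, i2, ρ2, C2, h1, h2, h3, h4, h5, h6⟩ :=
      rm_step hp hp2 hζ hz2 Q Fr (m := n + 1) (by omega) hz hzζ ρ hρ C hC hfac hS htm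
    have hz' : IsPrimitiveRoot (z ^ p) (p ^ (n + 2)) := by
      refine hz.pow (pow_pos hp.pos _) ?_
      rw [← pow_succ']
    have hzζ' : (z ^ p) ^ (p ^ (n + 1)) = ζ := by
      rw [← pow_mul, ← pow_succ', hzζ]
    have hp0 : (p : ℤ) ≠ 0 := by exact_mod_cast hp.ne_zero
    have h7 := ih (z ^ p) hz' hzζ' R2 ρ2 h1 C2 h2 h3 h4 h5 (fun v hv hvT => by
      have h8 := h6 v hv
      rw [hur v hv hvT, sub_self] at h8
      exact sub_eq_zero.1 ((mul_eq_zero.1 h8.symm).resolve_left hp0))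
    have h8 : ∑ v ∈ T, ((lam v).val : ℤ) * (C (Fr.F v) (L.t v) - C (L.t v) (Fr.F v)) =
        (p : ℤ) * ∑ v ∈ T, ((lam v).val : ℤ) * (C2 (Fr.F v) (L.t v) - C2 (L.t v) (Fr.F v)) := by
      rw [Finset.mul_sum]
      refine Finset.sum_congr rfl fun v hv => ?_
      rw [h6 v (hT v hv)]
      ring
    rw [h8, pow_succ' (p : ℤ) (n + 1)]
    exact mul_dvd_mul_left _ h7

end Pool.Agent.H24.RM
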