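import Mathlib

/-!
# [H24 RM IZ] integral cochains which are cocycles modulo `N`

`IZ N C`: normalised (exactly) and a cocycle modulo `N`. `dd f` the coboundary of a 1-cochain.
* `iz_iv`: `p (C(F,t) - C(t,F)) = 0` mod `N` for commuting `F`, `t` with `t^p = 1`.
* `iz_step`: division by `p`.
* `cr_sum`: the sum of the carry cocycle along a cyclic group.
-/

set_option autoImplicit false

namespace Pool.Agent.H24.RM

variable {G : Type} [Group G]

/-- `C` is normalised and a cocycle modulo `N` -/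
structure IZ (N : ℤ) {G : Type} [Group G] (C : G → G → ℤ) : Prop where
  l1 : ∀ σ, C 1 σ = 0
  r1 : ∀ σ, C σ 1 = 0
  co : ∀ σ τ υ, N ∣ C τ υ - C (σ * τ) υ + C σ (τ * υ) - C σ τ

/-- the coboundary of a 1-cochain -/
def dd {G : Type} [Group G] (f : G → ℤ) (σ τ : G) : ℤ := f σ + f τ - f (σ * τ)

theorem dd_co (f : G → ℤ) (σ τ υ : G) :
    dd f τ υ - dd f (σ * τ) υ + dd f σ (τ * υ) - dd f σ τ = 0 := by
  unfold dd
  rw [mul_assoc]
  ring

theorem iz_iv {N : ℤ} {C : G → G → ℤ} (hC : IZ N C) {H : Type} [Group H] (ρ : G →* H)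
    (hfac : ∀ σ σ' τ τ', ρ σ = ρ σ' → ρ τ = ρ τ' → C σ τ = C σ' τ') {F t : G} {p : ℕ}
    (hc : ρ F * ρ t = ρ t * ρ F) (ht : ρ t ^ p = 1) : N ∣ (p : ℤ) * (C F t - C t F) := by
  have hcom : ∀ k : ℕ, ρ F * ρ (t ^ k) = ρ (t ^ k) * ρ F := by
    intro k
    rw [map_pow]
    exact ((show Commute (ρ F) (ρ t) from hc).pow_right k).eq
  have key : ∀ k : ℕ, N ∣ (C F (t ^ k) - C (t ^ k) F) - (k : ℤ) * (C F t - C t F) := by
    intro k
    induction k with
    | zero =>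
      rw [pow_zero, hC.r1, hC.l1, Nat.cast_zero, zero_mul, sub_zero, sub_zero]
      exact dvd_zero _
    | succ k ih =>
      have h1 := hC.co F t (t ^ k)
      have h2 := hC.co t F (t ^ k)
      have h3 := hC.co t (t ^ k) F
      have e1 : C (F * t) (t ^ k) = C (t * F) (t ^ k) :=
        hfac _ _ _ _ (by rw [map_mul, map_mul, hc]) rfl
      have e2 : C t (F * t ^ k) = C t (t ^ k * F) :=
        hfac _ _ _ _ rfl (by rw [map_mul, map_mul, hcom])
      rw [pow_succ']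
      have h4 := dvd_add (dvd_add (dvd_sub h1 h2) h3) ih
      rw [e1, e2] at h4
      refine (Int.dvd_iff_dvd_of_dvd_sub ?_).1 h4
      refine ⟨0, ?_⟩
      push_cast
      ring
  have h1 := key p
  have e1 : C F (t ^ p) = 0 := by
    rw [hfac F F (t ^ p) 1 rfl (by rw [map_pow, ht, map_one])]
    exact hC.r1 F
  have e2 : C (t ^ p) F = 0 := by
    rw [hfac (t ^ p) 1 F F (by rw [map_pow, ht, map_one]) rfl]
    exact hC.l1 F
  rw [e1, e2, sub_zero, zero_sub] at h1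
  exact (dvd_neg (a := N)).1 h1

theorem iz_sub {N : ℤ} {p : ℤ} (hp : p ≠ 0) {C c : G → G → ℤ} (hC : IZ N C) {χ : G → ℤ}
    (hχ : χ 1 = 0) (hc : ∀ σ τ, p * c σ τ = dd χ σ τ) : IZ N (fun σ τ => C σ τ - c σ τ) := by
  have c1 : ∀ σ, c 1 σ = 0 := by
    intro σ
    have h := hc 1 σ
    unfold dd at h
    rw [one_mul, hχ, zero_add, sub_self] at h
    exact (mul_eq_zero.1 h).resolve_left hp
  have c2 : ∀ σ, c σ 1 = 0 := by
    intro σ
    have h := hc σ 1
    unfold dd at h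
    rw [mul_one, hχ, add_zero, sub_self] at h
    exact (mul_eq_zero.1 h).resolve_left hp
  refine ⟨fun σ => ?_, fun σ => ?_, fun σ τ υ => ?_⟩
  · show C 1 σ - c 1 σ = 0
    rw [hC.l1, c1, sub_zero]
  · show C σ 1 - c σ 1 = 0
    rw [hC.r1, c2, sub_zero]
  · have h3 : c τ υ - c (σ * τ) υ + c σ (τ * υ) - c σ τ = 0 := by
      have h := dd_co χ σ τ υ
      rw [← hc, ← hc, ← hc, ← hc] at h
      have h' : p * (c τ υ - c (σ * τ) υ + c σ (τ * υ) - c σ τ) = 0 := by linear_combination h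
      exact (mul_eq_zero.1 h').resolve_left hp
    show N ∣ (C τ υ - c τ υ) - (C (σ * τ) υ - c (σ * τ) υ) + (C σ (τ * υ) - c σ (τ * υ)) - (C σ τ - c σ τ)
    have h4 := hC.co σ τ υ
    have h5 : (C τ υ - c τ υ) - (C (σ * τ) υ - c (σ * τ) υ) + (C σ (τ * υ) - c σ (τ * υ)) - (C σ τ - c σ τ) =
        C τ υ - C (σ * τ) υ + C σ (τ * υ) - C σ τ := by linear_combination -h3
    rw [h5]
    exact h4

theorem iz_step {p : ℤ} (hp : p ≠ 0) {m : ℕ} {C C2 : G → G → ℤ} (hC : IZ (p ^ (m + 1)) C)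
    {l : G → ℤ} (hl : l 1 = 0) (h2 : ∀ σ τ, p * C2 σ τ = C σ τ + dd l σ τ) : IZ (p ^ m) C2 := by
  have d1 : ∀ σ, dd l 1 σ = 0 := by
    intro σ
    unfold dd
    rw [one_mul, hl, zero_add, sub_self]
  have d2 : ∀ σ, dd l σ 1 = 0 := by
    intro σ
    unfold dd
    rw [mul_one, hl, add_zero, sub_self]
  refine ⟨fun σ => ?_, fun σ => ?_, fun σ τ υ => ?_⟩
  · have h := h2 1 σ
    rw [hC.l1, d1, add_zero] at h
    exact (mul_eq_zero.1 h).resolve_left hp
  · have h := h2 σ 1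
    rw [hC.r1, d2, add_zero] at h
    exact (mul_eq_zero.1 h).resolve_left hp
  · have h4 := hC.co σ τ υ
    have h5 : p * (C2 τ υ - C2 (σ * τ) υ + C2 σ (τ * υ) - C2 σ τ) =
        C τ υ - C (σ * τ) υ + C σ (τ * υ) - C σ τ := by
      linear_combination h2 τ υ - h2 (σ * τ) υ + h2 σ (τ * υ) - h2 σ τ + dd_co l σ τ υ
    rw [← h5, pow_succ'] at h4
    exact (mul_dvd_mul_iff_left hp).1 h4

theorem cr_sum {p : ℕ} (hp : p ≠ 0) {c : G → G → ℤ} {χ : G → ℤ}
    (hc : ∀ σ τ, (p : ℤ) * c σ τ = dd χ σ τ) {t : G} (h1 : χ 1 = 0) (ht : χ (t ^ p) = 0) :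
    ∑ k ∈ Finset.range p, c (t ^ k) t = χ t := by
  have hp' : (p : ℤ) ≠ 0 := by exact_mod_cast hp
  apply mul_left_cancel₀ hp'
  rw [Finset.mul_sum]
  have h2 : ∀ k ∈ Finset.range p, (p : ℤ) * c (t ^ k) t = (χ (t ^ k) - χ (t ^ (k + 1))) + χ t := by
    intro k _
    rw [hc, dd, ← pow_succ]
    ring
  rw [Finset.sum_congr rfl h2, Finset.sum_add_distrib, Finset.sum_range_sub', pow_zero, h1, ht,
    Finset.sum_const, Finset.card_range, nsmul_eq_mul]
  ring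

end Pool.Agent.H24.RM
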