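import Pool.Agent.H24.RM.Kl
import Pool.Agent.H24.RM.Iz
import Pool.Agent.H57.BRA.Grp
import Pool.Agent.H38.BG.TTam
import Pool.Agent.H63.MC.CHa

/-!
# [H24 RM STP] devissage: from `p^(m+1)` to `p^m`

See the header of `H19/AB/Rm.lean`.
-/

set_option autoImplicit false
set_option linter.dupNamespace false

open scoped NumberField
open IsDedekindDomain
open scoped Classical

noncomputable section

namespace Pool.Agent.H24.RM

open H63.MA H38.BB H38.BG H57.PC H57.BRA H89.BRG H48.MF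

theorem zd {p : ℕ} (a : ℤ) (h : ((a : ℤ) : ZMod p) = 0) : (p : ℤ) ∣ a :=
  (ZMod.intCast_zmod_eq_zero_iff_dvd a p).1 h

theorem dz {p : ℕ} {a : ℤ} (h : (p : ℤ) ∣ a) : ((a : ℤ) : ZMod p) = 0 :=
  (ZMod.intCast_zmod_eq_zero_iff_dvd a p).2 h

theorem xt_fin {p : ℕ} [NeZero p] {R : Type} [Group R] [Finite R] {e : R → R → ZMod p}
    (he : Coc p e) : Finite (Xt e he) := by
  refine Finite.of_injective (fun x : Xt e he => (x.r, x.z)) fun x y h => ?_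
  exact Xt.ext (congrArg Prod.fst h) (congrArg Prod.snd h)

variable {K : Type} [Field K] [NumberField K] {Ω : Type} [Field Ω] [Algebra K Ω]
  {p : ℕ} {ζ : K}

theorem t_in {D : RD0 K p ζ} (L : LDs D Ω) {v : Pl K} (hv : v ∉ D.S0) : L.t v ∈ inr L v := by
  unfold inr LDs.t
  rw [dif_pos hv, dif_pos hv]
  exact (L.ld v hv).ht

variable [IsAlgClosure K Ω]

/-- a Kummer generator with given values at the inertia generators -/
theorem kgen (hp : p.Prime) (hζ : IsPrimitiveRoot ζ p) {D : RD0 K p ζ} (L : LDs D Ω) {R : Type}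
    [Group R] [Finite R] (ρ : Gal(Ω/K) →* R) (hρ : H38.ML.FT ρ) (C : Gal(Ω/K) → Gal(Ω/K) → ℤ)
    {N : ℤ} (hC : IZ N C) (hfac : ∀ σ σ' τ τ', ρ σ = ρ σ' → ρ τ = ρ τ' → C σ τ = C σ' τ') :
    ∃ b : Kˣ, ∀ v, v ∉ D.S0 → kk p ζ b (L.t v) =
      ((∑ k ∈ Finset.range p, C (L.t v ^ k) (L.t v) : ℤ) : ZMod p) := by
  have hfin := ram_finite hp D L ρ hρ
  let n : Pl K → ZMod p := fun v => if v ∈ hfin.toFinset then
    ((∑ k ∈ Finset.range p, C (L.t v ^ k) (L.t v) : ℤ) : ZMod p) else 0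
  refine ⟨∏ v ∈ hfin.toFinset, D.pi v ^ ((n v).val : ℤ), fun v hv => ?_⟩
  rw [CHa_val hp hζ D L hfin.toFinset (fun w hw => ((Set.Finite.mem_toFinset hfin).1 hw).1) n v hv
    (fun w hw => if_neg hw)]
  by_cases h : v ∈ hfin.toFinset
  · exact if_pos h
  · have ht : ρ (L.t v) = 1 := by
      by_contra h1
      exact h ((Set.Finite.mem_toFinset hfin).2 ⟨hv, h1⟩)
    rw [show n v = 0 from if_neg h, Finset.sum_eq_zero, Int.cast_zero]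
    intro k _
    rw [hfac (L.t v ^ k) (L.t v ^ k) (L.t v) 1 rfl (by rw [ht, map_one])]
    exact hC.r1 _

theorem rm_step (hp : p.Prime) (hp2 : MOne p K) (hζ : IsPrimitiveRoot ζ p) (hz2 : Z2 p K)
    {D : RD0 K p ζ} {L : LDs D Ω} (Q : DP K Ω) (Fr : FR L) {m : ℕ} (hm : 1 ≤ m) {z : K}
    (hz : IsPrimitiveRoot z (p ^ (m + 2))) (hzζ : z ^ (p ^ (m + 1)) = ζ) {R : Type} [Group R]
    [Finite R] (ρ : Gal(Ω/K) →* R) (hρ : H38.ML.FT ρ) (C : Gal(Ω/K) → Gal(Ω/K) → ℤ)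
    (hC : IZ ((p : ℤ) ^ (m + 1)) C)
    (hfac : ∀ σ σ' τ τ', ρ σ = ρ σ' → ρ τ = ρ τ' → C σ τ = C σ' τ')
    (hS : ∀ v ∈ D.S0, ∃ θ : Gal(Ω/K) → ℤ, Lev θ ∧ ∀ σ ∈ dec (K := K) (Q.P v),
      ∀ τ ∈ dec (K := K) (Q.P v), ((p : ℤ) ^ (m + 1)) ∣ dd θ σ τ - C σ τ)
    (htm : ∀ v, v ∉ D.S0 → ∀ τ ∈ inr L v, ρ τ ^ p = 1) :
    ∃ (R2 : Type) (_ : Group R2) (_ : Finite R2) (ρ2 : Gal(Ω/K) →* R2)
      (C2 : Gal(Ω/K) → Gal(Ω/K) → ℤ), H38.ML.FT ρ2 ∧ IZ ((p : ℤ) ^ m) C2 ∧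
      (∀ σ σ' τ τ', ρ2 σ = ρ2 σ' → ρ2 τ = ρ2 τ' → C2 σ τ = C2 σ' τ') ∧
      (∀ v ∈ D.S0, ∃ θ : Gal(Ω/K) → ℤ, Lev θ ∧ ∀ σ ∈ dec (K := K) (Q.P v),
        ∀ τ ∈ dec (K := K) (Q.P v), ((p : ℤ) ^ m) ∣ dd θ σ τ - C2 σ τ) ∧
      (∀ v, v ∉ D.S0 → ∀ τ ∈ inr L v, ρ2 τ ^ p = 1) ∧
      ∀ v, v ∉ D.S0 → C (Fr.F v) (L.t v) - C (L.t v) (Fr.F v) =
        (p : ℤ) * (C2 (Fr.F v) (L.t v) - C2 (L.t v) (Fr.F v)) := by
  have hp0 : (p : ℤ) ≠ 0 := by exact_mod_cast hp.ne_zero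
  haveI : NeZero p := ⟨hp.ne_zero⟩
  haveI : Fact p.Prime := ⟨hp⟩
  obtain ⟨b, hb⟩ := kgen hp hζ L ρ hρ C hC hfac
  obtain ⟨Θ, hΘl, hΘk, hΘd⟩ := kl (Ω := Ω) hp hζ (n := m + 2) (by omega) hz hzζ b
  set χ : Gal(Ω/K) → ℤ := fun σ => ((kk p ζ b σ).val : ℤ) with hχ
  have hχk : ∀ σ, ((χ σ : ℤ) : ZMod p) = kk p ζ b σ := fun σ => gkum_val hp _
  have hχl : Lev χ := by
    obtain ⟨E, hE, h⟩ := gtriv_kk (Ω := Ω) hp hζ b
    exact ⟨E, hE, fun σ u hu => congrArg (fun x : ZMod p => ((x.val : ℕ) : ℤ)) (h σ u hu)⟩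
  have hχ1 : χ 1 = 0 := by
    show ((kk p ζ b (1 : Gal(Ω/K))).val : ℤ) = 0
    rw [kk_one, ZMod.val_zero, Nat.cast_zero]
  have hχd : ∀ σ τ, (p : ℤ) ∣ dd χ σ τ := by
    intro σ τ
    apply zd
    unfold dd
    push_cast
    rw [hχk, hχk, hχk, kk_mul, sub_self]
  set c : Gal(Ω/K) → Gal(Ω/K) → ℤ := fun σ τ => dd χ σ τ / p with hcdef
  have hc : ∀ σ τ, (p : ℤ) * c σ τ = dd χ σ τ := fun σ τ => Int.mul_ediv_cancel' (hχd σ τ)
  set κ : Gal(Ω/K) → ℤ := fun σ => (χ σ - Θ σ) / p with hκdef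
  have hκ : ∀ σ, (p : ℤ) * κ σ = χ σ - Θ σ := fun σ => by
    refine Int.mul_ediv_cancel' (zd _ ?_)
    push_cast
    rw [hχk, hΘk, sub_self]
  have hκl : Lev κ := gtriv_lev hχl hΘl (fun x y => (x - y) / (p : ℤ))
  -- the cochain `C' = C - c`
  have hC1 := iz_sub hp0 hC hχ1 hc
  set C1 : Gal(Ω/K) → Gal(Ω/K) → ℤ := fun σ τ => C σ τ - c σ τ with hC1def
  set ρ1 : Gal(Ω/K) →* R × Multiplicative (ZMod p) := ρ.prod (kc p ζ Ω b) with hρ1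
  have hρ1f : H38.ML.FT ρ1 := by
    obtain ⟨E, hE, hE2⟩ := hρ
    obtain ⟨E', hE', hE2'⟩ := (kc_is (Ω := Ω) hp hζ b).1
    refine ⟨E ⊔ E', IntermediateField.finiteDimensional_sup _ _, fun u hu => ?_⟩
    have h1 : ρ u = 1 := MonoidHom.mem_ker.1
      (hE2 (IntermediateField.fixingSubgroup_antitone le_sup_left hu))
    have h2 : kc p ζ Ω b u = 1 := MonoidHom.mem_ker.1
      (hE2' (IntermediateField.fixingSubgroup_antitone le_sup_right hu))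
    rw [MonoidHom.mem_ker, hρ1, MonoidHom.prod_apply, h1, h2]
    rfl
  have hρχ : ∀ σ σ', ρ1 σ = ρ1 σ' → ρ σ = ρ σ' ∧ χ σ = χ σ' := by
    intro σ σ' h
    refine ⟨congrArg Prod.fst h, ?_⟩
    have h2 : kc p ζ Ω b σ = kc p ζ Ω b σ' := congrArg Prod.snd h
    show ((kk p ζ b σ).val : ℤ) = ((kk p ζ b σ').val : ℤ)
    unfold kk
    rw [h2]
  have hfac1 : ∀ σ σ' τ τ', ρ1 σ = ρ1 σ' → ρ1 τ = ρ1 τ' → C1 σ τ = C1 σ' τ' := by
    intro σ σ' τ τ' h h'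
    have h3 : ρ1 (σ * τ) = ρ1 (σ' * τ') := by rw [map_mul, map_mul, h, h']
    show C σ τ - dd χ σ τ / p = C σ' τ' - dd χ σ' τ' / p
    unfold dd
    rw [hfac σ σ' τ τ' (hρχ _ _ h).1 (hρχ _ _ h').1, (hρχ _ _ h).2, (hρχ _ _ h').2, (hρχ _ _ h3).2]
  -- the cocycle modulo `p`
  have hX1 : ∀ σ τ υ, (((C1 τ υ : ℤ) : ZMod p) + ((C1 σ (τ * υ) : ℤ) : ZMod p)) =
      ((C1 (σ * τ) υ : ℤ) : ZMod p) + ((C1 σ τ : ℤ) : ZMod p) := by
    intro σ τ υ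
    have h := dz ((dvd_pow_self (p : ℤ) (by omega : m + 1 ≠ 0)).trans (hC1.co σ τ υ))
    push_cast at h
    linear_combination h
  obtain ⟨e, he, hpe⟩ := H51.MT.brg_e ρ1 (fun σ τ => ((C1 σ τ : ℤ) : ZMod p))
    (fun σ => by rw [hC1.l1, Int.cast_zero]) (fun σ => by rw [hC1.r1, Int.cast_zero]) hX1
    (fun σ σ' τ τ' h h' => by rw [hfac1 σ σ' τ τ' h h'])
  set ρr : Gal(Ω/K) →* ρ1.range := ρ1.rangeRestrict with hρr
  have hρrf : H38.ML.FT ρr := by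
    obtain ⟨E', h, h'⟩ := hρ1f
    exact ⟨E', h, fun u hu => MonoidHom.mem_ker.2 (Subtype.ext (MonoidHom.mem_ker.1 (h' hu)))⟩
  have htm1 : ∀ v, v ∉ D.S0 → ∀ τ ∈ inr L v, ρr τ ^ p = 1 := by
    intro v hv τ hτ
    refine Subtype.ext ?_
    refine Prod.ext (htm v hv τ hτ) ?_
    show kc p ζ Ω b τ ^ p = 1
    apply Multiplicative.toAdd.injective
    rw [toAdd_pow, nsmul_eq_mul, ZMod.natCast_self, zero_mul]
    rfl
  have hcom1 : ∀ v, v ∉ D.S0 → ρr (Fr.F v) * ρr (L.t v) = ρr (L.t v) * ρr (Fr.F v) :=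
    fun v hv => Fr.com v hv _ ρr hρrf (htm1 v hv)
  have hfacr : ∀ σ σ' τ τ', ρr σ = ρr σ' → ρr τ = ρr τ' → C1 σ τ = C1 σ' τ' :=
    fun σ σ' τ τ' h h' => hfac1 σ σ' τ τ' (congrArg Subtype.val h) (congrArg Subtype.val h')
  have hiv : ∀ v, v ∉ D.S0 → iv e (ρr (Fr.F v)) (ρr (L.t v)) = 0 := by
    intro v hv
    have h1 := iz_iv hC1 ρr hfacr (hcom1 v hv) (htm1 v hv _ (t_in L hv))
    rw [pow_succ'] at h1
    have h2 := (mul_dvd_mul_iff_left hp0).1 h1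
    have h3 := dz ((dvd_pow_self (p : ℤ) (by omega : m ≠ 0)).trans h2)
    rw [iv, hpe, hpe]
    push_cast at h3
    exact h3
  choose! θ hθl hθ using hS
  have hμ0 : ∀ v ∈ D.S0, Lev (fun σ => θ v σ - κ σ) := fun v hv =>
    gtriv_lev (hθl v hv) hκl (fun x y => x - y)
  have hcκ : ∀ σ τ, ((p : ℤ) ^ (m + 1)) ∣ dd κ σ τ - c σ τ := by
    intro σ τ
    have h1 : (p : ℤ) * (dd κ σ τ - c σ τ) = -(Θ σ + Θ τ - Θ (σ * τ)) := by
      unfold dd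
      have h2 := hc σ τ
      unfold dd at h2
      linear_combination hκ σ + hκ τ - hκ (σ * τ) - h2
    have h2 : (p : ℤ) * (p : ℤ) ^ (m + 1) ∣ (p : ℤ) * (dd κ σ τ - c σ τ) := by
      rw [h1, ← pow_succ', dvd_neg]
      exact hΘd σ τ
    exact (mul_dvd_mul_iff_left hp0).1 h2
  have hθC1 : ∀ v ∈ D.S0, ∀ σ ∈ dec (K := K) (Q.P v), ∀ τ ∈ dec (K := K) (Q.P v),
      ((p : ℤ) ^ (m + 1)) ∣ dd (fun σ => θ v σ - κ σ) σ τ - C1 σ τ := by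
    intro v hv σ hσ τ hτ
    have h1 := dvd_sub (hθ v hv σ hσ τ hτ) (hcκ σ τ)
    have h2 : dd (fun σ => θ v σ - κ σ) σ τ - C1 σ τ =
        (dd (θ v) σ τ - C σ τ) - (dd κ σ τ - c σ τ) := by
      show (θ v σ - κ σ) + (θ v τ - κ τ) - (θ v (σ * τ) - κ (σ * τ)) - (C σ τ - c σ τ) =
        (θ v σ + θ v τ - θ v (σ * τ) - C σ τ) - (κ σ + κ τ - κ (σ * τ) - c σ τ)
      ring
    rw [h2]
    exact h1
  have hKl : ∀ v ∈ D.S0, Kl (pb e ρr) (dec (K := K) (Q.P v) : Set Gal(Ω/K)) := by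
    intro v hv
    refine ⟨fun σ => ((-(θ v σ - κ σ) : ℤ) : ZMod p), ?_, fun σ hσ τ hτ => ?_⟩
    · obtain ⟨E, hE, h⟩ := hμ0 v hv
      exact ⟨E, hE, fun σ u hu => congrArg (fun x : ℤ => ((-x : ℤ) : ZMod p)) (h σ u hu)⟩
    · have h1 := dz ((dvd_pow_self (p : ℤ) (by omega : m + 1 ≠ 0)).trans (hθC1 v hv σ hσ τ hτ))
      unfold dd at h1
      show ((-(θ v (σ * τ) - κ (σ * τ)) : ℤ) : ZMod p) = ((-(θ v σ - κ σ) : ℤ) : ZMod p) +
        ((-(θ v τ - κ τ) : ℤ) : ZMod p) + e (ρr σ) (ρr τ)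
      rw [hpe]
      push_cast at h1 ⊢
      linear_combination h1
  obtain ⟨l, hll, hlX⟩ := brg1f hp hp2 hζ hz2 Q Fr he hρrf hKl htm1 hiv
  have hl1 : l 1 = 0 := by
    have h1 := hlX 1 1
    have h2 : pb e ρr 1 1 = 0 := by
      show e (ρr 1) (ρr 1) = 0
      rw [map_one]
      exact he.l1 _
    rw [mul_one, h2, add_zero] at h1
    exact left_eq_add.1 h1
  have hlX' : ∀ σ τ, l (σ * τ) = l σ + l τ + ((C1 σ τ : ℤ) : ZMod p) := by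
    intro σ τ
    rw [hlX σ τ, ← hpe σ τ]
    rfl
  set lt : Gal(Ω/K) → ℤ := fun σ => ((l σ).val : ℤ) with hlt
  have hltk : ∀ σ, ((lt σ : ℤ) : ZMod p) = l σ := fun σ => gkum_val hp _
  have hlt1 : lt 1 = 0 := by
    show ((l 1).val : ℤ) = 0
    rw [hl1, ZMod.val_zero, Nat.cast_zero]
  have hltl : Lev lt := by
    obtain ⟨E, hE, h⟩ := hll
    exact ⟨E, hE, fun σ u hu => congrArg (fun x : ZMod p => ((x.val : ℕ) : ℤ)) (h σ u hu)⟩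
  set C2 : Gal(Ω/K) → Gal(Ω/K) → ℤ := fun σ τ => (C1 σ τ + dd lt σ τ) / p with hC2
  have hC2p : ∀ σ τ, (p : ℤ) * C2 σ τ = C1 σ τ + dd lt σ τ := fun σ τ => by
    refine Int.mul_ediv_cancel' (zd _ ?_)
    unfold dd
    push_cast
    rw [hltk, hltk, hltk, hlX']
    ring
  let ρ2 : Gal(Ω/K) →* Xt e he :=
    { toFun := fun σ => ⟨ρr σ, l σ⟩
      map_one' := by
        rw [map_one, hl1]
        rfl
      map_mul' := fun σ τ => by
        rw [xt_mul, map_mul, hlX σ τ]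
        rfl }
  have hρ2r : ∀ σ, (ρ2 σ).r = ρr σ := fun _ => rfl
  have hρ2z : ∀ σ, (ρ2 σ).z = l σ := fun _ => rfl
  haveI : Finite (Xt e he) := xt_fin he
  have hρ2f : H38.ML.FT ρ2 := lev_ft ρ2 (gtriv_lev (ft_lev ρr hρrf) hll (fun x y => (⟨x, y⟩ : Xt e he)))
  have hfac2l : ∀ σ σ', ρ2 σ = ρ2 σ' → ρr σ = ρr σ' ∧ lt σ = lt σ' := by
    intro σ σ' h
    refine ⟨congrArg Xt.r h, ?_⟩
    have h2 : l σ = l σ' := congrArg Xt.z h
    show ((l σ).val : ℤ) = ((l σ').val : ℤ)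
    rw [h2]
  have htm2 : ∀ v, v ∉ D.S0 → ∀ τ ∈ inr L v, ρ2 τ ^ p = 1 := by
    intro v hv τ hτ
    have h1 := tm_z hp hζ L ρr hρrf v hv (htm1 v hv) τ hτ
    have h2 := htm1 v hv _ (t_in L hv)
    have h3 : pw e (ρr (L.t v)) = 0 := by
      unfold pw
      have h4 : ∀ k ∈ Finset.range p, e (ρr (L.t v) ^ k) (ρr (L.t v)) =
          ((C1 (L.t v ^ k) (L.t v) : ℤ) : ZMod p) := by
        intro k _
        rw [← map_pow, hpe]
      rw [Finset.sum_congr rfl h4, ← Int.cast_sum]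
      have h5 : ∑ k ∈ Finset.range p, C1 (L.t v ^ k) (L.t v) =
          ∑ k ∈ Finset.range p, C (L.t v ^ k) (L.t v) - χ (L.t v) := by
        show ∑ k ∈ Finset.range p, (C (L.t v ^ k) (L.t v) - c (L.t v ^ k) (L.t v)) = _
        rw [Finset.sum_sub_distrib, cr_sum hp.ne_zero hc hχ1]
        show ((kk p ζ b (L.t v ^ p)).val : ℤ) = 0
        have h6 : kk p ζ b (L.t v ^ p) = 0 := by
          unfold kk
          rw [map_pow, toAdd_pow, nsmul_eq_mul, ZMod.natCast_self, zero_mul]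
        rw [h6, ZMod.val_zero, Nat.cast_zero]
      rw [h5, Int.cast_sub, hχk, hb v hv, sub_self]
    have h4 := pw_pow he h2 h3 (kk p ζ (D.pi v) τ).val
    rw [← h1] at h4
    exact grp_pw_zero he h4.1 h4.2 (l τ)
  refine ⟨Xt e he, inferInstance, inferInstance, ρ2, C2, hρ2f, iz_step hp0 hC1 hlt1 hC2p, ?_, ?_,
    htm2, ?_⟩
  · intro σ σ' τ τ' h h'
    have h3 : ρ2 (σ * τ) = ρ2 (σ' * τ') := by rw [map_mul, map_mul, h, h']
    show (C1 σ τ + dd lt σ τ) / p = (C1 σ' τ' + dd lt σ' τ') / p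
    unfold dd
    rw [hfacr σ σ' τ τ' (hfac2l _ _ h).1 (hfac2l _ _ h').1, (hfac2l _ _ h).2, (hfac2l _ _ h').2,
      (hfac2l _ _ h3).2]
  · -- the coboundaries at `S0`
    set μ : Pl K → Gal(Ω/K) → ℤ := fun v σ => (θ v σ - κ σ) + lt σ with hμ
    have hμl : ∀ v ∈ D.S0, Lev (μ v) := fun v hv => gtriv_lev (hμ0 v hv) hltl (fun x y => x + y)
    have hμd : ∀ v ∈ D.S0, ∀ σ ∈ dec (K := K) (Q.P v), ∀ τ ∈ dec (K := K) (Q.P v),
        ((p : ℤ) ^ (m + 1)) ∣ dd (μ v) σ τ - p * C2 σ τ := by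
      intro v hv σ hσ τ hτ
      have h1 := hθC1 v hv σ hσ τ hτ
      have h2 : dd (μ v) σ τ - p * C2 σ τ = dd (fun σ => θ v σ - κ σ) σ τ - C1 σ τ := by
        rw [hC2p]
        show (θ v σ - κ σ) + lt σ + ((θ v τ - κ τ) + lt τ) - ((θ v (σ * τ) - κ (σ * τ)) + lt (σ * τ)) -
          (C1 σ τ + (lt σ + lt τ - lt (σ * τ))) =
          (θ v σ - κ σ) + (θ v τ - κ τ) - (θ v (σ * τ) - κ (σ * τ)) - C1 σ τ
        ring
      rw [h2]
      exact h1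
    have hμh : ∀ v ∈ D.S0, ∀ σ ∈ dec (K := K) (Q.P v), ∀ τ ∈ dec (K := K) (Q.P v),
        ((μ v (σ * τ) : ℤ) : ZMod p) = ((μ v σ : ℤ) : ZMod p) + ((μ v τ : ℤ) : ZMod p) := by
      intro v hv σ hσ τ hτ
      have h1 := dz ((dvd_pow_self (p : ℤ) (by omega : m + 1 ≠ 0)).trans (hμd v hv σ hσ τ hτ))
      unfold dd at h1
      push_cast at h1
      rw [ZMod.natCast_self, zero_mul, sub_zero] at h1
      linear_combination -h1
    have hμ1 : ∀ v ∈ D.S0, ((μ v 1 : ℤ) : ZMod p) = 0 := by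
      intro v hv
      have h1 := hμh v hv 1 (Subgroup.one_mem _) 1 (Subgroup.one_mem _)
      rw [mul_one] at h1
      exact left_eq_add.1 h1
    let dl : (v : Pl K) → dec (K := K) (Q.P v) →* Multiplicative (ZMod p) := fun v =>
      if hv : v ∈ D.S0 then
        { toFun := fun u => Multiplicative.ofAdd ((μ v (u : Gal(Ω/K)) : ℤ) : ZMod p)
          map_one' := by
            show Multiplicative.ofAdd ((μ v (1 : Gal(Ω/K)) : ℤ) : ZMod p) = 1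
            rw [hμ1 v hv]
            rfl
          map_mul' := fun u u' => by
            show Multiplicative.ofAdd ((μ v ((u : Gal(Ω/K)) * (u' : Gal(Ω/K))) : ℤ) : ZMod p) = _
            rw [hμh v hv _ u.2 _ u'.2]
            rfl }
      else 1
    have hdl : ∀ v ∈ D.S0, ∀ u : dec (K := K) (Q.P v),
        Multiplicative.toAdd (dl v u) = ((μ v (u : Gal(Ω/K)) : ℤ) : ZMod p) := by
      intro v hv u
      show Multiplicative.toAdd ((if hv : v ∈ D.S0 then _ else (1 : dec (K := K) (Q.P v) →* Multiplicative (ZMod p))) u) = _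
      rw [dif_pos hv]
      rfl
    obtain ⟨b', hb'⟩ := lock (Ω := Ω) hp hζ D.S0 Q dl (fun v hv => by
      obtain ⟨E, hE, h⟩ := hμl v hv
      refine ⟨E, hE, fun u hu => ?_⟩
      apply Multiplicative.toAdd.injective
      rw [hdl v hv u, toAdd_one]
      have h1 := h 1 (u : Gal(Ω/K)) hu
      rw [one_mul] at h1
      rw [h1]
      exact hμ1 v hv)
    obtain ⟨Θ', hΘl', hΘk', hΘd'⟩ := kl (Ω := Ω) hp hζ (n := m + 2) (by omega) hz hzζ b'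
    intro v hv
    refine ⟨fun σ => (μ v σ - Θ' σ) / p, gtriv_lev (hμl v hv) hΘl' (fun x y => (x - y) / (p : ℤ)),
      fun σ hσ τ hτ => ?_⟩
    have hdiv : ∀ σ ∈ dec (K := K) (Q.P v), (p : ℤ) * ((μ v σ - Θ' σ) / p) = μ v σ - Θ' σ := by
      intro σ hσ
      refine Int.mul_ediv_cancel' (zd _ ?_)
      push_cast
      rw [hΘk', hb' v hv ⟨σ, hσ⟩, hdl v hv ⟨σ, hσ⟩, sub_self]
    have h1 := hdiv σ hσ
    have h2 := hdiv τ hτ
    have h3 := hdiv (σ * τ) (Subgroup.mul_mem _ hσ hτ)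
    have h4 := hμd v hv σ hσ τ hτ
    have h5 := hΘd' σ τ
    have h6 : ((p : ℤ) ^ (m + 1)) ∣ Θ' σ + Θ' τ - Θ' (σ * τ) :=
      (pow_dvd_pow (p : ℤ) (by omega : m + 1 ≤ m + 2)).trans h5
    have h7 : (p : ℤ) * (dd (fun σ => (μ v σ - Θ' σ) / p) σ τ - C2 σ τ) =
        (dd (μ v) σ τ - p * C2 σ τ) - (Θ' σ + Θ' τ - Θ' (σ * τ)) := by
      unfold dd
      linear_combination h1 + h2 - h3
    have h8 : (p : ℤ) * (p : ℤ) ^ m ∣ (p : ℤ) * (dd (fun σ => (μ v σ - Θ' σ) / p) σ τ - C2 σ τ) := by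
      rw [h7, ← pow_succ']
      exact dvd_sub h4 h6
    exact (mul_dvd_mul_iff_left hp0).1 h8
  · intro v hv
    have h1 : ρ2 (Fr.F v * L.t v) = ρ2 (L.t v * Fr.F v) := by
      rw [map_mul, map_mul]
      exact Fr.com v hv _ ρ2 hρ2f (htm2 v hv)
    have h2 := (hfac2l _ _ h1).2
    have h3 : χ (Fr.F v * L.t v) = χ (L.t v * Fr.F v) := by
      show ((kk p ζ b (Fr.F v * L.t v)).val : ℤ) = ((kk p ζ b (L.t v * Fr.F v)).val : ℤ)
      rw [kk_mul, kk_mul, add_comm]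
    have h4 : c (Fr.F v) (L.t v) = c (L.t v) (Fr.F v) := by
      show dd χ (Fr.F v) (L.t v) / p = dd χ (L.t v) (Fr.F v) / p
      unfold dd
      rw [h3, add_comm (χ (Fr.F v))]
    have h5 := hC2p (Fr.F v) (L.t v)
    have h6 := hC2p (L.t v) (Fr.F v)
    unfold dd at h5 h6
    have h7 : C1 (Fr.F v) (L.t v) = C (Fr.F v) (L.t v) - c (Fr.F v) (L.t v) := rfl
    have h8 : C1 (L.t v) (Fr.F v) = C (L.t v) (Fr.F v) - c (L.t v) (Fr.F v) := rfl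
    rw [h7, h2] at h5
    rw [h8] at h6
    linear_combination h6 - h5 + h4

end Pool.Agent.H24.RM
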